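import Pool.Agent.H67.Q.Side
import Pool.Agent.H31.Q.Plug
import Pool.Agent.H62.Ind.Final
import Pool.Agent.H41.Q.Tree

set_option autoImplicit false

/-!
Assembly check of full Q1 of MP_a46c6f_co from the landed rows.
-/

namespace Pool.Agent.H30.FQ

open SimpleGraph Pool.Agent.H5.Goddyn Pool.Agent.H98.TC Pool.Agent.H64.Pent Pool.Agent.H98.Code

theorem core : Pool.Agent.H41.Q.Core := by
  intro V _ _ L e H S hL hH hS
  exact Pool.Agent.H67.Q.code_side_sides hL hH hS

theorem goddyn {V : Type*} [Finite V] (G : SimpleGraph V) (M C₁ C₂ : G.Subgraph)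
    (h : IsPermutationGraph G M C₁ C₂) (hcrit : IsCriticalContraPair G (wt M)) :
    IsPetersenPair G M :=
  Pool.Agent.H31.Q.main_of (Pool.Agent.H41.Q.heart_of core) G M C₁ C₂ h hcrit.2

end Pool.Agent.H30.FQ
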